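import Pool.Agent.Y382.DN.Krr
import Pool.Agent.H607R2.BW.KST

/-!
Graphs decided by decomposable circuits.
-/

set_option autoImplicit false

namespace Pool.Agent.Y382.DN

open Finset Pool.Agent.Y622.NG Pool.Agent.H607R2.BW

theorem card_pairs {V : Type} [Fintype V] (G : SimpleGraph V) :
    Nat.card {p : V × V // G.Adj p.1 p.2} = 2 * Nat.card G.edgeSet := by
  rw [← KST_card G]
  refine Nat.card_congr ⟨fun p => ⟨![p.1.1, p.1.2], by simpa using p.2⟩,
    fun x => ⟨(x.1 0, x.1 1), x.2⟩, fun p => rfl, fun x => ?_⟩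
  apply Subtype.ext
  funext i
  fin_cases i <;> rfl

/-- a graph without `K_{s,t}` has no grid -/
theorem gridFree_of_free {m s t r : ℕ} (hs : s ≤ r) (ht : t ≤ r) (G : SimpleGraph (Str m))
    (h : (completeBipartiteGraph (Fin s) (Fin t)).Free G) : GridFree r G.Adj := by
  intro x y hx hy
  by_contra hcon
  push_neg at hcon
  apply h
  refine ⟨⟨⟨Sum.elim (fun i => x (Fin.castLE hs i)) (fun j => y (Fin.castLE ht j)), ?_⟩, ?_⟩⟩
  · intro a b hab
    rw [completeBipartiteGraph_adj] at hab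
    rcases a with a | a <;> rcases b with b | b <;> simp at hab
    · exact hcon _ _
    · exact (hcon _ _).symm
  · intro a b hab
    have hab' : Sum.elim (fun i => x (Fin.castLE hs i)) (fun j => y (Fin.castLE ht j)) a =
      Sum.elim (fun i => x (Fin.castLE hs i)) (fun j => y (Fin.castLE ht j)) b := hab
    rcases a with a | a <;> rcases b with b | b
    · exact congrArg Sum.inl (Fin.castLE_injective hs (hx hab'))
    · exact absurd hab' (G.ne_of_adj (hcon _ _))
    · exact absurd hab'.symm (G.ne_of_adj (hcon _ _))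
    · exact congrArg Sum.inr (Fin.castLE_injective ht (hy hab'))

/-- the number of edges -/
theorem edges_le {m z w s t r : ℕ} (hr : 2 ≤ r) (hs : s ≤ r) (ht : t ≤ r) (G : SimpleGraph (Str m))
    (hG : PairDnnf m z w G.Adj) (h : (completeBipartiteGraph (Fin s) (Fin t)).Free G) :
    Nat.card G.edgeSet ≤ (r - 1) ^ 3 * 2 ^ w * (z * 2 ^ m) := by
  have h1 := t_KRR m z w r G.Adj hr hG (gridFree_of_free hs ht G h)
  rw [card_pairs] at h1
  have e : 2 * (r - 1) ^ 3 * 2 ^ w * (z * 2 ^ m) = 2 * ((r - 1) ^ 3 * 2 ^ w * (z * 2 ^ m)) := by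
    ring
  rw [e] at h1
  omega

/-- girth larger than four -/
theorem free_of_girth {V : Type} {G : SimpleGraph V} (h : 4 < G.egirth) :
    (completeBipartiteGraph (Fin 2) (Fin 2)).Free G := by
  rintro ⟨f⟩
  have hadj : ∀ i j : Fin 2, G.Adj (f (Sum.inl i)) (f (Sum.inr j)) := by
    intro i j
    exact f.toHom.map_adj (by rw [completeBipartiteGraph_adj]; simp)
  have hinj := f.injective
  have h01 : f (Sum.inl 0) ≠ f (Sum.inl 1) := fun h => by
    have := hinj h
    simp at this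
  have h23 : f (Sum.inr 0) ≠ f (Sum.inr 1) := fun h => by
    have := hinj h
    simp at this
  let p : G.Walk (f (Sum.inl 0)) (f (Sum.inl 0)) :=
    .cons (hadj 0 0) (.cons (hadj 1 0).symm (.cons (hadj 1 1) (.cons (hadj 0 1).symm .nil)))
  have hp : p.IsCycle := by
    have e1 : f (Sum.inl 0) ≠ f (Sum.inr 0) := G.ne_of_adj (hadj 0 0)
    have e2 : f (Sum.inl 0) ≠ f (Sum.inr 1) := G.ne_of_adj (hadj 0 1)
    have e3 : f (Sum.inl 1) ≠ f (Sum.inr 0) := G.ne_of_adj (hadj 1 0)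
    have e4 : f (Sum.inl 1) ≠ f (Sum.inr 1) := G.ne_of_adj (hadj 1 1)
    rw [SimpleGraph.Walk.isCycle_def]
    refine ⟨?_, by simp [p], ?_⟩
    · rw [SimpleGraph.Walk.isTrail_def]
      simp [p, h01, h23, e1, e2, e3, e4, h01.symm, h23.symm, e1.symm, e2.symm, e3.symm, e4.symm]
    · simp [p, h01, h23, e1, e2, e3, e4, h01.symm, h23.symm, e1.symm, e2.symm, e3.symm, e4.symm]
  have := SimpleGraph.egirth_le_length hp
  have h5 : p.length = 4 := rfl
  rw [h5] at this
  exact absurd h (not_lt.2 this)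

/-- a real form of the bounds -/
theorem real_form {c' e d ρ : ℝ} {m z : ℕ} (hd : 0 < ρ)
    (h1 : c' * ((2 : ℝ) ^ m) ^ (1 + d) ≤ e) (h2 : e ≤ ρ * (z * 2 ^ m)) :
    c' / ρ * ((2 : ℝ) ^ m) ^ d ≤ z := by
  have h2m : (0 : ℝ) < (2 : ℝ) ^ m := by positivity
  rw [Real.rpow_add h2m, Real.rpow_one] at h1
  have h3 : c' * ((2 : ℝ) ^ m) ^ d * (2 : ℝ) ^ m ≤ ρ * z * (2 : ℝ) ^ m := by
    calc _ = c' * ((2 : ℝ) ^ m * ((2 : ℝ) ^ m) ^ d) := by ring
      _ ≤ _ := h1
      _ ≤ _ := h2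
      _ = _ := by ring
  have h4 := le_of_mul_le_mul_right h3 h2m
  rw [div_mul_eq_mul_div, div_le_iff₀ hd]
  linarith

end Pool.Agent.Y382.DN
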