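import Pool.Agent.Y382.DN.Count

/-!
Accepted sets of decomposable circuits without an `r × r` grid are small.
-/

set_option autoImplicit false

namespace Pool.Agent.Y382.DN

open Finset Pool.Agent.Y622.NG

variable {n s w : ℕ}

/-- an `r × r` grid: the `i`-th line of the type `c` is given by the coordinates of type `c` -/
def Gr (τ : Fin n → Bool) (r : ℕ) (P : (Fin n → Bool) → Prop) : Prop :=
  ∃ p : Bool → Fin r → Fin n → Bool,
    (∀ i j : Fin r, P (fun k => if τ k then p true j k else p false i k)) ∧
    ∀ (c : Bool) (i i' : Fin r), i ≠ i' → ∃ k, τ k = c ∧ p c i k ≠ p c i' k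

theorem accept {C : Dnnf n s w} {out v : Fin s} {x y : Fin n → Bool} (hx : Reach C out x v)
    (hy : C.val v y = true) : C.val out (mxs (C.scope v) y x) = true := by
  have h1 : Reach C out (mxs (C.scope v) y x) v :=
    (t_REACH n s w C out v x hx).2.1 _ fun k hk => (mxs_not_mem hk).symm
  refine (t_REACH n s w C out v _ h1).2.2 ?_
  rw [← hy]
  exact C.dep v _ _ fun k hk => mxs_mem hk

theorem tf {C : Dnnf n s w} {out v : Fin s} {τ : Fin n → Bool} {j : Bool} {r : ℕ} (hr : 1 ≤ r)
    (h1 : Star τ j r (C.scope v) (fun x => C.val v x = true))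
    (h2 : Star τ (!j) r (C.scope v)ᶜ (fun x => Reach C out x v)) :
    Gr τ r (fun x => C.val out x = true) := by
  obtain ⟨f, f1, f2, f3⟩ := h1
  obtain ⟨g, g1, g2, g3⟩ := h2
  let z : Fin r := ⟨0, hr⟩
  have key : ∀ a b : Fin r, C.val out (mxs (C.scope v) (f a) (g b)) = true :=
    fun a b => accept (g1 b) (f1 a)
  cases j with
  | false =>
    refine ⟨fun c i => if c then mxs (C.scope v) (f i) (g z) else mxs (C.scope v) (f z) (g i),
      ?_, ?_⟩
    · intro a b
      refine (congrArg (C.val out) ?_).trans (key b a)
      funext k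
      by_cases hk : k ∈ C.scope v
      · cases ht : τ k
        · simp only [Bool.false_eq_true, if_false, mxs_mem hk]
          exact f2 _ _ k hk ht
        · simp only [if_true, mxs_mem hk]
      · have hk' : k ∈ (C.scope v)ᶜ := mem_compl.2 hk
        cases ht : τ k
        · simp only [Bool.false_eq_true, if_false, mxs_not_mem hk]
        · simp only [if_true, mxs_not_mem hk]
          exact g2 _ _ k hk' (by rw [ht]; rfl)
    · intro c i i' hne
      cases c with
      | false =>
        obtain ⟨k, hk, hd⟩ := g3 i i' hne
        have hk' : k ∉ C.scope v := mem_compl.1 hk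
        refine ⟨k, ?_, ?_⟩
        · by_contra ht
          exact hd (g2 i i' k hk (by simpa using ht))
        · simp only [Bool.false_eq_true, if_false, mxs_not_mem hk']
          exact hd
      | true =>
        obtain ⟨k, hk, hd⟩ := f3 i i' hne
        refine ⟨k, ?_, ?_⟩
        · by_contra ht
          exact hd (f2 i i' k hk (by simpa using ht))
        · simp only [if_true, mxs_mem hk]
          exact hd
  | true =>
    refine ⟨fun c i => if c then mxs (C.scope v) (f z) (g i) else mxs (C.scope v) (f i) (g z),
      ?_, ?_⟩
    · intro a b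
      refine (congrArg (C.val out) ?_).trans (key a b)
      funext k
      by_cases hk : k ∈ C.scope v
      · cases ht : τ k
        · simp only [Bool.false_eq_true, if_false, mxs_mem hk]
        · simp only [if_true, mxs_mem hk]
          exact f2 _ _ k hk ht
      · have hk' : k ∈ (C.scope v)ᶜ := mem_compl.2 hk
        cases ht : τ k
        · simp only [Bool.false_eq_true, if_false, mxs_not_mem hk]
          exact g2 _ _ k hk' (by rw [ht]; rfl)
        · simp only [if_true, mxs_not_mem hk]
    · intro c i i' hne
      cases c with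
      | false =>
        obtain ⟨k, hk, hd⟩ := f3 i i' hne
        refine ⟨k, ?_, ?_⟩
        · by_contra ht
          exact hd (f2 i i' k hk (by simpa using ht))
        · simp only [Bool.false_eq_true, if_false, mxs_mem hk]
          exact hd
      | true =>
        obtain ⟨k, hk, hd⟩ := g3 i i' hne
        have hk' : k ∉ C.scope v := mem_compl.1 hk
        refine ⟨k, ?_, ?_⟩
        · by_contra ht
          exact hd (g2 i i' k hk (by simpa using ht))
        · simp only [if_true, mxs_not_mem hk']
          exact hd

theorem grid_free {τ : Fin n → Bool} {r : ℕ} {F : Finset (Fin n)} {x0 : Fin n → Bool}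
    {P : (Fin n → Bool) → Prop} (hacc : ∀ y, (∀ k ∉ F, y k = x0 k) → P y)
    (h0 : ∀ j, r ≤ 2 ^ (F.filter fun k => τ k = !j).card) : Gr τ r P := by
  obtain ⟨f, f1, f2⟩ := star_free (h0 false) x0
  obtain ⟨g, g1, g2⟩ := star_free (h0 true) x0
  refine ⟨fun c => if c then f else g, ?_, ?_⟩
  · intro a b
    apply hacc
    intro k hk
    cases ht : τ k
    · simp only [Bool.false_eq_true, if_false]
      exact g1 _ k (Or.inl hk)
    · simp only [if_true]
      exact f1 _ k (Or.inl hk)
  · intro c i i' hne
    cases c with
    | false =>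
      obtain ⟨k, -, h2, h3⟩ := g2 i i' hne
      exact ⟨k, by simpa using h2, by simpa using h3⟩
    | true =>
      obtain ⟨k, -, h2, h3⟩ := f2 i i' hne
      exact ⟨k, by simpa using h2, by simpa using h3⟩

theorem free_case {C : Dnnf n s w} {out c : Fin s} {τ : Fin n → Bool} {r : ℕ} (hr : 1 ≤ r)
    (hG : ¬ Gr τ r (fun x => C.val out x = true)) {V : Finset (Fin n)}
    {x0 : Fin n → Bool} (hval : C.val c x0 = true)
    (hmod : ∀ y, (∀ k ∉ V, y k = x0 k) → Reach C out y c) {j : Bool}
    (hj : ¬ Star τ j r (C.scope c) (fun x => C.val c x = true)) :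
    ∃ j', ¬ Star τ j' r (C.scope c) (fun x => C.val c x = true) ∧
      2 ^ ((V \ C.scope c).filter fun k => τ k = !j').card ≤ r - 1 := by
  classical
  by_cases h : r ≤ 2 ^ ((V \ C.scope c).filter fun k => τ k = !j).card
  · refine ⟨!j, ?_, ?_⟩
    · intro hs
      apply hG
      refine tf hr hs ?_
      rw [Bool.not_not]
      obtain ⟨f, f1, f2⟩ := star_free h x0
      refine ⟨f, ?_, ?_, ?_⟩
      · intro i
        exact hmod _ fun k hk => f1 i k (Or.inl fun h => hk (mem_sdiff.1 h).1)
      · intro i i' k _ hk
        rw [f1 i k (Or.inr hk), f1 i' k (Or.inr hk)]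
      · intro i i' hne
        obtain ⟨k, h1, -, h3⟩ := f2 i i' hne
        exact ⟨k, mem_compl.2 (mem_sdiff.1 h1).2, h3⟩
    · by_contra hcon
      apply hG
      refine grid_free (F := V \ C.scope c) (x0 := x0) ?_ ?_
      · intro y hy
        have h1 : Reach C out y c := hmod y fun k hk => hy k fun h => hk (mem_sdiff.1 h).1
        refine (t_REACH n s w C out c y h1).2.2 ?_
        rw [← hval]
        exact C.dep c _ _ fun k hk => hy k fun h => (mem_sdiff.1 h).2 hk
      · intro i
        have h2 : r ≤ 2 ^ ((V \ C.scope c).filter fun k => τ k = !!j).card := by omega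
        cases i <;> cases j
        · exact h
        · exact h2
        · exact h2
        · exact h
  · exact ⟨j, hj, by omega⟩

/-- both stars at the gate `v` -/
def Heavy (τ : Fin n → Bool) (r : ℕ) (C : Dnnf n s w) (v : Fin s) : Prop :=
  ∀ j, Star τ j r (C.scope v) (fun x => C.val v x = true)

theorem light {C : Dnnf n s w} {out v : Fin s} {τ : Fin n → Bool} {r : ℕ} (hr : 1 ≤ r)
    (hG : ¬ Gr τ r (fun x => C.val out x = true)) (hv : Heavy τ r C v) (j : Bool) :
    ¬ Star τ j r (C.scope v)ᶜ (fun x => Reach C out x v) := by
  intro h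
  apply hG
  refine tf (j := !j) hr (hv _) ?_
  rwa [Bool.not_not]

theorem main_acc (C : Dnnf n s w) (out : Fin s) (τ : Fin n → Bool) (r M : ℕ) (hr : 2 ≤ r)
    (hM : ∀ j, (univ.filter fun k => τ k = j).card ≤ M)
    (hG : ¬ Gr τ r (fun x => C.val out x = true)) :
    (acc C out).card ≤ 2 * s * ((r - 1) ^ 3 * 2 ^ w * 2 ^ M) := by
  classical
  have hr1 : 1 ≤ r := by omega
  have hs : 1 ≤ s := by have := out.2; omega
  have hρ : 1 ≤ r - 1 := by omega
  have hw : 1 ≤ 2 ^ w := Nat.one_le_two_pow
  have hρ3 : r - 1 ≤ (r - 1) ^ 3 := Nat.le_self_pow (by norm_num) _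
  have hρ2 : (r - 1) ^ 2 ≤ (r - 1) ^ 3 := Nat.pow_le_pow_right hρ (by norm_num)
  by_cases hout : Heavy τ r C out
  · have hW := t_WALK n s w C out (Heavy τ r C) ((r - 1) ^ 3 * 2 ^ w * 2 ^ M) id hout ?_ ?_ ?_
    · rwa [image_id] at hW
    · -- disjunctions
      intro v β hor hv hc
      rw [image_id]
      obtain ⟨hlt, hsub, himp⟩ := ch_prop C hor β
      rcases (piece C out v (ch C v β)).eq_empty_or_nonempty with he | ⟨x0, hx0⟩
      · rw [he]; simp
      · rw [mem_piece] at hx0
        unfold Heavy at hc
        push_neg at hc
        obtain ⟨j, hj⟩ := hc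
        obtain ⟨j', h1, h2⟩ := free_case hr1 hG (V := C.scope v) hx0.2 (fun y hy =>
          Reach.or v β hor ((t_REACH n s w C out v x0 hx0.1).2.1 y fun k hk => (hy k hk).symm)) hj
        have h3 := light hr1 hG hv j'
        have := cnt τ j' M (hM j') (piece C out v (ch C v β)) (C.scope (ch C v β))
          (C.scope v \ C.scope (ch C v β)) (C.scope v)ᶜ (by
            intro k
            by_cases hk : k ∈ C.scope (ch C v β)
            · exact Or.inl hk
            · by_cases hk' : k ∈ C.scope v
              · exact Or.inr (Or.inl (mem_sdiff.2 ⟨hk', hk⟩))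
              · exact Or.inr (Or.inr (mem_compl.2 hk'))) (r - 1) (r - 1) (r - 1)
          (bd_of_star hr1 h1 fun x hx => (mem_piece.1 hx).2) (bd_of_small h2)
          (bd_of_star hr1 h3 fun x hx => (mem_piece.1 hx).1)
        calc _ ≤ _ := this
          _ = (r - 1) ^ 3 * 1 * 2 ^ M := by ring
          _ ≤ _ := Nat.mul_le_mul_right _ (Nat.mul_le_mul_left _ hw)
    · -- conjunctions
      intro v a b hk hv hna hnb
      rw [image_id]
      obtain ⟨ha, hb, hs', hd, hval⟩ := C.and_ok v a b hk
      rcases (piece C out v v).eq_empty_or_nonempty with he | ⟨x0, hx0⟩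
      · rw [he]; simp
      · rw [mem_piece] at hx0
        have hR := t_REACH n s w C out v x0 hx0.1
        have hab : C.val a x0 = true ∧ C.val b x0 = true := by
          have := hx0.2
          rw [hval, Bool.and_eq_true] at this
          exact this
        have hsa : C.scope a ⊆ C.scope v := by rw [hs']; exact subset_union_left
        have hsb : C.scope b ⊆ C.scope v := by rw [hs']; exact subset_union_right
        -- a common missing type
        have hj : ∃ j, ¬ Star τ j r (C.scope a) (fun x => C.val a x = true) ∧
            ¬ Star τ j r (C.scope b) (fun x => C.val b x = true) := by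
          unfold Heavy at hna hnb
          push_neg at hna hnb
          obtain ⟨j, hja⟩ := hna
          by_cases hjb : Star τ j r (C.scope b) (fun x => C.val b x = true)
          · have hjb' : ¬ Star τ (!j) r (C.scope b) (fun x => C.val b x = true) := by
              obtain ⟨i, hi⟩ := hnb
              have : i = !j := by
                by_contra hne
                have : i = j := by cases i <;> cases j <;> simp_all
                rw [this] at hi
                exact hi hjb
              rwa [this] at hi
            refine ⟨!j, ?_, hjb'⟩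
            intro hsa'
            apply hG
            refine tf hr1 hsa' ?_
            rw [Bool.not_not]
            obtain ⟨f, f1, f2, f3⟩ := hjb
            refine ⟨fun i => mxs (C.scope b) (f i) x0, ?_, ?_, ?_⟩
            · intro i
              refine Reach.left v a b hk (hR.2.1 _ fun k hk' => ?_) ?_
              · exact (mxs_not_mem fun h => hk' (hsb h)).symm
              · rw [← f1 i]
                exact C.dep b _ _ fun k hk' => mxs_mem hk'
            · intro i i' k _ hk'
              show mxs (C.scope b) (f i) x0 k = mxs (C.scope b) (f i') x0 k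
              by_cases hkb : k ∈ C.scope b
              · rw [mxs_mem hkb, mxs_mem hkb]
                exact f2 i i' k hkb hk'
              · rw [mxs_not_mem hkb, mxs_not_mem hkb]
            · intro i i' hne
              obtain ⟨k, hk1, hk2⟩ := f3 i i' hne
              refine ⟨k, mem_compl.2 fun h => (disjoint_left.1 hd) h hk1, ?_⟩
              show mxs (C.scope b) (f i) x0 k ≠ mxs (C.scope b) (f i') x0 k
              rw [mxs_mem hk1, mxs_mem hk1]
              exact hk2
          · exact ⟨j, hja, hjb⟩
        obtain ⟨j', h1, h2⟩ := hj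
        have h3 := light hr1 hG hv j'
        have hvv : ∀ x ∈ piece C out v v, C.val a x = true ∧ C.val b x = true := by
          intro x hx
          have := (mem_piece.1 hx).2
          rw [hval, Bool.and_eq_true] at this
          exact this
        have := cnt τ j' M (hM j') (piece C out v v) (C.scope a) (C.scope b) (C.scope v)ᶜ (by
            intro k
            by_cases hk : k ∈ C.scope v
            · rw [hs', mem_union] at hk
              rcases hk with hk | hk
              · exact Or.inl hk
              · exact Or.inr (Or.inl hk)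
            · exact Or.inr (Or.inr (mem_compl.2 hk))) (r - 1) (r - 1) (r - 1)
          (bd_of_star hr1 h1 fun x hx => (hvv x hx).1) (bd_of_star hr1 h2 fun x hx => (hvv x hx).2)
          (bd_of_star hr1 h3 fun x hx => (mem_piece.1 hx).1)
        calc _ ≤ _ := this
          _ = (r - 1) ^ 3 * 1 * 2 ^ M := by ring
          _ ≤ _ := Nat.mul_le_mul_right _ (Nat.mul_le_mul_left _ hw)
    · -- leaves
      intro v hk hv
      rw [image_id]
      have h3 := light hr1 hG hv false
      have := cnt τ false M (hM false) (piece C out v v) (C.scope v) (C.scope v)ᶜ ∅ (by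
            intro k
            by_cases hk : k ∈ C.scope v
            · exact Or.inl hk
            · exact Or.inr (Or.inl (mem_compl.2 hk))) (2 ^ w) (r - 1) 1
          (bd_res (Nat.pow_le_pow_right (by norm_num) (C.leaf_ok v hk).1))
          (bd_of_star hr1 h3 fun x hx => (mem_piece.1 hx).1) (bd_res (by simp))
      calc _ ≤ _ := this
        _ = (r - 1) * 2 ^ w * 2 ^ M := by ring
        _ ≤ _ := Nat.mul_le_mul_right _ (Nat.mul_le_mul_right _ hρ3)
  · -- the root is not heavy
    have hK : (acc C out).card ≤ (r - 1) ^ 3 * 2 ^ w * 2 ^ M := by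
      rcases (acc C out).eq_empty_or_nonempty with he | ⟨x0, hx0⟩
      · rw [he]; simp
      · rw [mem_acc] at hx0
        unfold Heavy at hout
        push_neg at hout
        obtain ⟨j, hj⟩ := hout
        obtain ⟨j', h1, h2⟩ := free_case hr1 hG (V := univ) hx0 (fun y _ => Reach.root) hj
        have := cnt τ j' M (hM j') (acc C out) (C.scope out)
          (univ \ C.scope out) ∅ (by
            intro k
            by_cases hk : k ∈ C.scope out
            · exact Or.inl hk
            · exact Or.inr (Or.inl (mem_sdiff.2 ⟨mem_univ _, hk⟩))) (r - 1) (r - 1) 1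
          (bd_of_star hr1 h1 fun x hx => mem_acc.1 hx) (bd_of_small h2) (bd_res (by simp))
        calc _ ≤ _ := this
          _ = (r - 1) ^ 2 * 1 * 2 ^ M := by ring
          _ ≤ _ := Nat.mul_le_mul_right _ (Nat.mul_le_mul hρ2 hw)
    calc _ ≤ _ := hK
      _ = 1 * _ := (one_mul _).symm
      _ ≤ _ := Nat.mul_le_mul_right _ (by omega)

end Pool.Agent.Y382.DN
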