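import Pool.Agent.Y382.DN.Walk

/-!
Counting with blocks and stars.
-/

set_option autoImplicit false

namespace Pool.Agent.Y382.DN

open Finset Pool.Agent.Y622.NG

variable {n : ℕ}

/-- the restriction to `T` (false elsewhere) -/
def res (T : Finset (Fin n)) (x : Fin n → Bool) : Fin n → Bool := mxs T x (fun _ => false)

theorem res_eq {T : Finset (Fin n)} {x y : Fin n → Bool} :
    res T x = res T y ↔ ∀ k ∈ T, x k = y k := by
  constructor
  · intro h k hk
    have := congrFun h k
    unfold res at this
    rwa [mxs_mem hk, mxs_mem hk] at this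
  · intro h
    funext k
    unfold res
    by_cases hk : k ∈ T
    · rw [mxs_mem hk, mxs_mem hk, h k hk]
    · rw [mxs_not_mem hk, mxs_not_mem hk]

theorem card_res (T : Finset (Fin n)) (S : Finset (Fin n → Bool)) :
    (S.image (res T)).card ≤ 2 ^ T.card := by
  classical
  have h : (S.image (res T)).card ≤ (T.powerset).card := by
    refine card_le_card_of_injOn (fun x => T.filter fun k => x k = true) ?_ ?_
    · intro x _
      exact mem_powerset.2 (filter_subset _ _)
    · intro x hx y hy hxy
      rw [mem_coe, mem_image] at hx hy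
      obtain ⟨x', -, rfl⟩ := hx
      obtain ⟨y', -, rfl⟩ := hy
      rw [res_eq]
      intro k hk
      have h1 := congrArg (fun s : Finset (Fin n) => (k ∈ s)) hxy
      simp only [mem_filter, hk, true_and, eq_iff_iff] at h1
      have e1 : res T x' k = x' k := mxs_mem hk
      have e2 : res T y' k = y' k := mxs_mem hk
      rw [e1, e2] at h1
      cases h3 : x' k <;> cases h4 : y' k <;> simp [h3, h4] at h1 ⊢
  rwa [card_powerset] at h

/-- with the coordinates of type `j` fixed, there are at most `c` possibilities on `T` -/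
def Bd (τ : Fin n → Bool) (j : Bool) (T : Finset (Fin n)) (P : Finset (Fin n → Bool))
    (c : ℕ) : Prop :=
  ∀ z : Fin n → Bool, ((P.filter fun x => ∀ k, τ k = j → x k = z k).image (res T)).card ≤ c

theorem cnt (τ : Fin n → Bool) (j : Bool) (M : ℕ) (hM : (univ.filter fun k => τ k = j).card ≤ M)
    (P : Finset (Fin n → Bool)) (T1 T2 T3 : Finset (Fin n)) (hT : ∀ k, k ∈ T1 ∨ k ∈ T2 ∨ k ∈ T3)
    (c1 c2 c3 : ℕ) (h1 : Bd τ j T1 P c1) (h2 : Bd τ j T2 P c2) (h3 : Bd τ j T3 P c3) :
    P.card ≤ c1 * c2 * c3 * 2 ^ M := by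
  classical
  set J := univ.filter fun k => τ k = j with hJ
  have hfib : ∀ y ∈ P.image (res J), (P.filter fun x => res J x = y).card ≤ c1 * c2 * c3 := by
    intro y hy
    rw [mem_image] at hy
    obtain ⟨z, hz, rfl⟩ := hy
    have e : (P.filter fun x => res J x = res J z) =
        P.filter fun x => ∀ k, τ k = j → x k = z k := by
      apply filter_congr
      intro x _
      rw [res_eq]
      simp [hJ]
    rw [e]
    set Q := P.filter fun x => ∀ k, τ k = j → x k = z k with hQ
    have hinj : Q.card ≤ ((Q.image (res T1)) ×ˢ ((Q.image (res T2)) ×ˢ (Q.image (res T3)))).card := by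
      refine card_le_card_of_injOn (fun x => (res T1 x, res T2 x, res T3 x)) ?_ ?_
      · intro x hx
        simp only [coe_product, Set.mem_prod, mem_coe, mem_image]
        exact ⟨⟨x, hx, rfl⟩, ⟨x, hx, rfl⟩, ⟨x, hx, rfl⟩⟩
      · intro x hx y hy hxy
        simp only [Prod.mk.injEq, res_eq] at hxy
        funext k
        rcases hT k with hk | hk | hk
        · exact hxy.1 k hk
        · exact hxy.2.1 k hk
        · exact hxy.2.2 k hk
    rw [card_product, card_product] at hinj
    calc Q.card ≤ _ := hinj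
      _ ≤ c1 * (c2 * c3) := Nat.mul_le_mul (h1 z) (Nat.mul_le_mul (h2 z) (h3 z))
      _ = c1 * c2 * c3 := by ring
  calc P.card ≤ (c1 * c2 * c3) * (P.image (res J)).card := card_le_mul_card_image _ _ hfib
    _ ≤ (c1 * c2 * c3) * 2 ^ M := by
      apply Nat.mul_le_mul_left
      exact (card_res J P).trans (Nat.pow_le_pow_right (by norm_num) hM)

/-- `r` points of `P` which agree in the coordinates of type `j` in `T` and are different on `T` -/
def Star (τ : Fin n → Bool) (j : Bool) (r : ℕ) (T : Finset (Fin n)) (P : (Fin n → Bool) → Prop) :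
    Prop :=
  ∃ f : Fin r → (Fin n → Bool), (∀ i, P (f i)) ∧
    (∀ i i', ∀ k ∈ T, τ k = j → f i k = f i' k) ∧
    (∀ i i', i ≠ i' → ∃ k ∈ T, f i k ≠ f i' k)

theorem bd_of_star {τ : Fin n → Bool} {j : Bool} {r : ℕ} (hr : 1 ≤ r) {T : Finset (Fin n)}
    {Q : (Fin n → Bool) → Prop} (h : ¬ Star τ j r T Q) {P : Finset (Fin n → Bool)}
    (hP : ∀ x ∈ P, Q x) : Bd τ j T P (r - 1) := by
  classical
  intro z
  by_contra hcon
  apply h
  set S := (P.filter fun x => ∀ k, τ k = j → x k = z k).image (res T) with hS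
  have hc : Fintype.card (Fin r) ≤ Fintype.card {y // y ∈ S} := by
    rw [Fintype.card_fin, Fintype.card_coe]; omega
  obtain ⟨e⟩ := Function.Embedding.nonempty_of_card_le hc
  have hex : ∀ i : Fin r, ∃ x ∈ P, (∀ k, τ k = j → x k = z k) ∧ res T x = (e i).1 := by
    intro i
    obtain ⟨x, hx, hxe⟩ := mem_image.1 (e i).2
    rw [mem_filter] at hx
    exact ⟨x, hx.1, hx.2, hxe⟩
  choose f hf1 hf2 hf3 using hex
  refine ⟨f, fun i => hP _ (hf1 i), fun i i' k _ hk => by rw [hf2 i k hk, hf2 i' k hk], ?_⟩
  intro i i' hne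
  by_contra hno
  push_neg at hno
  have : res T (f i) = res T (f i') := res_eq.2 hno
  rw [hf3, hf3] at this
  exact hne (e.injective (Subtype.ext this))

theorem bd_of_small {τ : Fin n → Bool} {j : Bool} {T : Finset (Fin n)}
    {P : Finset (Fin n → Bool)} {c : ℕ}
    (h : 2 ^ (T.filter fun k => τ k = !j).card ≤ c) : Bd τ j T P c := by
  classical
  intro z
  refine le_trans ?_ h
  refine le_trans ?_ (card_res (T.filter fun k => τ k = !j)
    (P.filter fun x => ∀ k, τ k = j → x k = z k))
  set S := P.filter fun x => ∀ k, τ k = j → x k = z k with hS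
  have hmap : S.image (res (T.filter fun k => τ k = !j)) =
      (S.image (res T)).image (res (T.filter fun k => τ k = !j)) := by
    rw [image_image]
    apply image_congr
    intro x _
    simp only [Function.comp]
    rw [res_eq]
    intro k hk
    exact (mxs_mem (mem_of_mem_filter k hk)).symm
  rw [hmap]
  refine le_of_eq (card_image_of_injOn ?_).symm
  intro x hx y hy hxy
  rw [mem_coe, mem_image] at hx hy
  obtain ⟨x', hx', rfl⟩ := hx
  obtain ⟨y', hy', rfl⟩ := hy
  rw [hS, mem_filter] at hx' hy'
  rw [res_eq]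
  rw [res_eq] at hxy
  intro k hk
  by_cases hj : τ k = j
  · rw [hx'.2 k hj, hy'.2 k hj]
  · have hk' : k ∈ T.filter fun k => τ k = !j := by
      rw [mem_filter]
      refine ⟨hk, ?_⟩
      cases h1 : τ k <;> cases j <;> simp_all
    have := hxy k hk'
    have e1 : res T x' k = x' k := mxs_mem hk
    have e2 : res T y' k = y' k := mxs_mem hk
    rwa [e1, e2] at this

theorem bd_res {τ : Fin n → Bool} {j : Bool} {T : Finset (Fin n)}
    {P : Finset (Fin n → Bool)} {c : ℕ} (h : 2 ^ T.card ≤ c) : Bd τ j T P c :=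
  fun _ => (card_res T _).trans h

/-- a star of free coordinates -/
theorem star_free {τ : Fin n → Bool} {j : Bool} {r : ℕ} {F : Finset (Fin n)}
    (h : r ≤ 2 ^ (F.filter fun k => τ k = !j).card) (x0 : Fin n → Bool) :
    ∃ f : Fin r → (Fin n → Bool), (∀ i, ∀ k, (k ∉ F ∨ τ k = j) → f i k = x0 k) ∧
      (∀ i i', i ≠ i' → ∃ k ∈ F, τ k = !j ∧ f i k ≠ f i' k) := by
  classical
  set H := F.filter fun k => τ k = !j with hH
  have hc : Fintype.card (Fin r) ≤ Fintype.card {y // y ∈ H.powerset} := by
    rw [Fintype.card_fin, Fintype.card_coe, card_powerset]; exact h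
  obtain ⟨e⟩ := Function.Embedding.nonempty_of_card_le hc
  refine ⟨fun i k => if k ∈ (e i).1 then !(x0 k) else x0 k, ?_, ?_⟩
  · intro i k hk
    have hsub := mem_powerset.1 (e i).2
    have hk' : k ∉ (e i).1 := by
      intro hk1
      have := hsub hk1
      rw [hH, mem_filter] at this
      rcases hk with hk | hk
      · exact hk this.1
      · rw [hk] at this
        exact absurd this.2 (by cases j <;> simp)
    simp only [if_neg hk']
  · intro i i' hne
    have hne' : (e i).1 ≠ (e i').1 := fun h => hne (e.injective (Subtype.ext h))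
    have hex : ∃ k, ¬ (k ∈ (e i).1 ↔ k ∈ (e i').1) := by
      by_contra hno
      push_neg at hno
      exact hne' (Finset.ext hno)
    obtain ⟨k, hk⟩ := hex
    have hkH : k ∈ H := by
      by_contra hkn
      apply hk
      constructor
      · intro h; exact absurd (mem_powerset.1 (e i).2 h) hkn
      · intro h; exact absurd (mem_powerset.1 (e i').2 h) hkn
    rw [hH, mem_filter] at hkH
    refine ⟨k, hkH.1, hkH.2, ?_⟩
    by_cases h1 : k ∈ (e i).1 <;> by_cases h2 : k ∈ (e i').1 <;> simp [h1, h2] at hk ⊢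

end Pool.Agent.Y382.DN
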