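import Pool.Agent.Y382.DN.Core

/-!
Relations between strings of `m` bits.
-/

set_option autoImplicit false

namespace Pool.Agent.Y382.DN

open Finset Pool.Agent.Y622.NG Pool.Agent.H607R2.BW

/-- the second string -/
def snd (m : ℕ) (k : Fin (m + m)) : Bool := decide (m ≤ k.val)

theorem card_snd (m : ℕ) (j : Bool) : (univ.filter fun k => snd m k = j).card ≤ m := by
  classical
  cases j with
  | false =>
    have : (univ.filter fun k => snd m k = false) ⊆ (univ : Finset (Fin m)).image (Fin.castAdd m) := by
      intro k hk
      rw [mem_filter] at hk
      have h1 : k.val < m := by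
        have := hk.2
        simp only [snd, decide_eq_false_iff_not, not_le] at this
        exact this
      rw [mem_image]
      exact ⟨⟨k.val, h1⟩, mem_univ _, Fin.ext rfl⟩
    calc _ ≤ _ := card_le_card this
      _ ≤ _ := card_image_le
      _ = m := by simp
  | true =>
    have : (univ.filter fun k => snd m k = true) ⊆ (univ : Finset (Fin m)).image (Fin.natAdd m) := by
      intro k hk
      rw [mem_filter] at hk
      have h1 : m ≤ k.val := by
        have := hk.2
        simpa only [snd, decide_eq_true_eq] using this
      have h2 := k.2
      rw [mem_image]
      refine ⟨⟨k.val - m, by omega⟩, mem_univ _, Fin.ext ?_⟩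
      simp only [Fin.val_natAdd]
      omega
    calc _ ≤ _ := card_le_card this
      _ ≤ _ := card_image_le
      _ = m := by simp

theorem t_KRR : S_KRR := by
  classical
  intro m s w r R hr hC hfree
  obtain ⟨C, out, hC⟩ := hC
  have hG : ¬ Gr (snd m) r (fun x => C.val out x = true) := by
    rintro ⟨p, hp, hd⟩
    obtain ⟨i, j, hij⟩ := hfree (fun i t => p false i (Fin.castAdd m t))
      (fun j t => p true j (Fin.natAdd m t)) (by
        intro i i' h
        by_contra hne
        obtain ⟨k, hk, hdk⟩ := hd false i i' hne
        have h1 : k.val < m := by
          simp only [snd, decide_eq_false_iff_not, not_le] at hk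
          exact hk
        have := congrFun h ⟨k.val, h1⟩
        exact hdk this) (by
        intro i i' h
        by_contra hne
        obtain ⟨k, hk, hdk⟩ := hd true i i' hne
        have h1 : m ≤ k.val := by simpa only [snd, decide_eq_true_eq] using hk
        have h2 := k.2
        have := congrFun h ⟨k.val - m, by omega⟩
        have e : Fin.natAdd m ⟨k.val - m, by omega⟩ = k := by
          apply Fin.ext
          simp only [Fin.val_natAdd]
          omega
        simp only [e] at this
        exact hdk this)
    apply hij
    rw [← hC]
    have := hp i j
    refine (congrArg (C.val out) ?_).trans this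
    funext k
    refine Fin.addCases (fun t => ?_) (fun t => ?_) k
    · rw [Fin.append_left]
      have : snd m (Fin.castAdd m t) = false := by
        simp only [snd, decide_eq_false_iff_not, not_le, Fin.val_castAdd]
        exact t.2
      simp only [this, Bool.false_eq_true, if_false]
    · rw [Fin.append_right]
      have : snd m (Fin.natAdd m t) = true := by
        simp only [snd, decide_eq_true_eq, Fin.val_natAdd]
        omega
      simp only [this, if_true]
  have hmain := main_acc C out (snd m) r m hr (card_snd m) hG
  have hcard : Nat.card {p : Str m × Str m // R p.1 p.2} ≤ (acc C out).card := by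
    have h1 : Nat.card {x // x ∈ acc C out} = (acc C out).card := by
      rw [Nat.card_eq_fintype_card, Fintype.card_coe]
    rw [← h1]
    refine Nat.card_le_card_of_injective
      (fun p : {p : Str m × Str m // R p.1 p.2} =>
        (⟨Fin.append p.1.1 p.1.2, mem_acc.2 ((hC _ _).2 p.2)⟩ : {x // x ∈ acc C out})) ?_
    rintro ⟨⟨x, y⟩, hxy⟩ ⟨⟨x', y'⟩, hxy'⟩ h
    have h2 : Fin.append x y = Fin.append x' y' := congrArg Subtype.val h
    have h3 : x = x' := by
      funext t
      have := congrFun h2 (Fin.castAdd m t)
      rwa [Fin.append_left, Fin.append_left] at this
    have h4 : y = y' := by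
      funext t
      have := congrFun h2 (Fin.natAdd m t)
      rwa [Fin.append_right, Fin.append_right] at this
    subst h3
    subst h4
    rfl
  calc _ ≤ _ := hcard
    _ ≤ _ := hmain
    _ = _ := by ring

end Pool.Agent.Y382.DN
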