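import Pool.Agent.Y622.NG.Cover
import Pool.Agent.TH454.BW.RepTrade
import Pool.Agent.TH454.BW.BlowGirth

/-!
Graphs and sets of numbers decided by decomposable circuits (DNNF): statements.
-/

set_option autoImplicit false

namespace Pool.Agent.Y382.DN

open Finset Pool.Agent.Y622.NG Pool.Agent.H607R2.BW Pool.Agent.TH454.BW

/-- The gate `v` is reached from the gate `out` on the input `x`: there is a path from `out` down
to `v` in which, at every conjunction, the other conjunct is true on `x`. -/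
inductive Reach {n s w : ℕ} (C : Dnnf n s w) (out : Fin s) (x : Fin n → Bool) : Fin s → Prop
  | root : Reach C out x out
  | or (v : Fin s) (β : Bool) : IsOr C v → Reach C out x v → Reach C out x (ch C v β)
  | left (v a b : Fin s) : C.kind v = .and a b → Reach C out x v → C.val b x = true →
      Reach C out x a
  | right (v a b : Fin s) : C.kind v = .and a b → Reach C out x v → C.val a x = true →
      Reach C out x b

/-- the accepted inputs -/
noncomputable def acc {n s w : ℕ} (C : Dnnf n s w) (out : Fin s) : Finset (Fin n → Bool) :=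
  univ.filter fun x => C.val out x = true

open Classical in
/-- the inputs on which `v` is reached and `c` is true -/
noncomputable def piece {n s w : ℕ} (C : Dnnf n s w) (out v c : Fin s) : Finset (Fin n → Bool) :=
  univ.filter fun x => Reach C out x v ∧ C.val c x = true

/-- COVER: every accepted input is in a piece at a lowest heavy gate -/
def S_COVER : Prop :=
  ∀ (n s w : ℕ) (C : Dnnf n s w) (out : Fin s) (Φ : Fin s → Prop), Φ out →
    ∀ x : Fin n → Bool, C.val out x = true →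
    (∃ (v : Fin s) (β : Bool), IsOr C v ∧ Φ v ∧ ¬ Φ (ch C v β) ∧ x ∈ piece C out v (ch C v β)) ∨
    (∃ v a b : Fin s, C.kind v = .and a b ∧ Φ v ∧ ¬ Φ a ∧ ¬ Φ b ∧ x ∈ piece C out v v) ∨
    (∃ v : Fin s, C.kind v = .leaf ∧ Φ v ∧ x ∈ piece C out v v)

/-- WALK: if the pieces at the lowest heavy gates have few images under `g`, then the accepted
inputs have few images -/
def S_WALK : Prop :=
  ∀ (n s w : ℕ) (C : Dnnf n s w) (out : Fin s) (Φ : Fin s → Prop) (K : ℕ)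
    (g : (Fin n → Bool) → (Fin n → Bool)), Φ out →
    (∀ (v : Fin s) (β : Bool), IsOr C v → Φ v → ¬ Φ (ch C v β) →
      ((piece C out v (ch C v β)).image g).card ≤ K) →
    (∀ v a b : Fin s, C.kind v = .and a b → Φ v → ¬ Φ a → ¬ Φ b →
      ((piece C out v v).image g).card ≤ K) →
    (∀ v : Fin s, C.kind v = .leaf → Φ v → ((piece C out v v).image g).card ≤ K) →
    ((acc C out).image g).card ≤ 2 * s * K

/-- REACH: elementary properties -/
def S_REACH : Prop :=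
  ∀ (n s w : ℕ) (C : Dnnf n s w) (out v : Fin s) (x : Fin n → Bool), Reach C out x v →
    C.scope v ⊆ C.scope out ∧
    (∀ y, (∀ k ∉ C.scope v, x k = y k) → Reach C out y v) ∧
    (C.val v x = true → C.val out x = true)

/-- CTX: being reached is decided by a circuit with `4 s` gates -/
def S_CTX : Prop :=
  ∀ (n s w : ℕ) (C : Dnnf n s w) (out v : Fin s), ∃ (C' : Dnnf n (4 * s) w) (o : Fin (4 * s)),
    Disjoint (C'.scope o) (C.scope v) ∧ C'.scope o ⊆ C.scope out ∧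
      ∀ x, C'.val o x = true ↔ Reach C out x v

/-- The set `P` contains a cube of dimension `d`: the directions change disjoint sets of
coordinates in `U`. -/
def Cube {n : ℕ} (U : Finset (Fin n)) (P : (Fin n → Bool) → Prop) (d : ℕ) : Prop :=
  ∃ (T : Fin d → Finset (Fin n)) (a b : Fin n → Bool), (∀ j, T j ⊆ U) ∧
    (∀ i j, i ≠ j → Disjoint (T i) (T j)) ∧ (∀ j, ∃ k ∈ T j, a k ≠ b k) ∧
    ∀ J : Finset (Fin d), P (fun k => if ∃ j ∈ J, k ∈ T j then b k else a k)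

/-- CUBE: accepted sets without a cube of dimension `t + 1` are small -/
def S_CUBE : Prop :=
  ∀ (t n s w : ℕ) (C : Dnnf n s w) (out : Fin s) (U : Finset (Fin n)), C.scope out ⊆ U →
    ¬ Cube U (fun x => C.val out x = true) (t + 1) →
    ((acc C out).image (fun x => mxs U x (fun _ => false))).card ≤ (2 ^ (w + 3 * t + 3) * s) ^ t

/-- SIM: nondeterministic decision diagrams are decomposable circuits -/
def S_SIM : Prop :=
  ∀ (n β : ℕ) (ord : Fin n ≃ Fin n) (σ : Type) (T : ℕ → Finset (σ × Bool × σ)) (s₀ : σ)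
    (F : Set σ), (∀ p, (T p).card ≤ β) →
    ∃ (s : ℕ) (C : Dnnf n s 1) (out : Fin s), s ≤ 10 * (β + 1) * (n + 1) ∧
      ∀ x : Fin n → Bool, C.val out x = true ↔
        ∃ s' ∈ F, Path T 0 s₀ (List.ofFn fun p => x (ord p)) s'

/-- The circuit decides which pairs of strings of `m` bits are in the relation `R`. -/
def PairDnnf (m s w : ℕ) (R : Str m → Str m → Prop) : Prop :=
  ∃ (C : Dnnf (m + m) s w) (out : Fin s), ∀ x y : Str m,
    C.val out (Fin.append x y) = true ↔ R x y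

/-- The circuit decides which numbers below `2 ^ m` are in the set `A`. -/
def SetDnnf (m s w : ℕ) (A : Set ℕ) : Prop :=
  ∃ (C : Dnnf m s w) (out : Fin s), ∀ a < 2 ^ m,
    C.val out (fun i => a.testBit i) = true ↔ a ∈ A

/-- no relation of `r` strings with `r` strings -/
def GridFree {m : ℕ} (r : ℕ) (R : Str m → Str m → Prop) : Prop :=
  ∀ x y : Fin r → Str m, Function.Injective x → Function.Injective y → ∃ i j, ¬ R (x i) (y j)

/-- KRR: the main theorem on relations -/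
def S_KRR : Prop :=
  ∀ (m s w r : ℕ) (R : Str m → Str m → Prop), 2 ≤ r → PairDnnf m s w R → GridFree r R →
    Nat.card {p : Str m × Str m // R p.1 p.2} ≤ 2 * (r - 1) ^ 3 * 2 ^ w * (s * 2 ^ m)

/-- REP: representation functions -/
def S_REP : Prop :=
  ∀ (A : Set ℕ) (m s w t : ℕ), SetDnnf m s w A →
    (2 ^ (w + 3 * t + 3) * s) ^ t < Nat.card {a : ℕ // a ∈ A ∧ a < 2 ^ m} →
    ∃ n < 2 ^ (m + 1), 2 ^ (t + 1) ≤ reps A n

/-- REPA: asymptotic form for representation functions -/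
def S_REPA : Prop :=
  ∀ (t : ℕ) (c c' d : ℝ), 1 ≤ t → 0 < c' → c < d / t →
    ∃ m₀ : ℕ, ∀ (m s : ℕ) (A : Set ℕ), m₀ ≤ m → SetDnnf m s 1 A →
      (∀ n < 2 ^ (m + 1), reps A n < 2 ^ (t + 1)) →
      c' * ((2 : ℝ) ^ m) ^ d ≤ Nat.card {a : ℕ // a ∈ A ∧ a < 2 ^ m} →
      ((2 : ℝ) ^ m) ^ c < s

/-- REPF: the density condition of the question -/
def S_REPF : Prop :=
  ∀ (g : ℕ → ℝ) (A : Set ℕ) (t : ℕ) (c : ℝ), 1 ≤ t → c < 1 / (2 * t) →
    Filter.Tendsto g Filter.atTop Filter.atTop →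
    (∀ ε : ℝ, 0 < ε → ∀ᶠ N : ℕ in Filter.atTop, g N ≤ (N : ℝ) ^ ε) →
    (∃ C : ℝ, 0 < C ∧ ∀ᶠ N : ℕ in Filter.atTop,
      (N : ℝ) ^ (1 / 2 : ℝ) / g N ≤ C * Nat.card {a : ℕ // a ∈ A ∧ 1 ≤ a ∧ a ≤ N}) →
    (∀ n, reps A n < 2 ^ (t + 1)) →
    ∀ᶠ m : ℕ in Filter.atTop, ∀ s : ℕ, SetDnnf m s 1 A → ((2 : ℝ) ^ m) ^ c < s

/-- SHR: sharpness for representation functions -/
def S_SHR : Prop :=
  ∀ t l m : ℕ, 2 ≤ l → (2 * l + 4) * t ≤ m →
    ∃ (s : ℕ) (A : Set ℕ), (∀ a ∈ A, a < 2 ^ m) ∧ SetDnnf m s 1 A ∧ (∀ n, reps A n ≤ 2 ^ t) ∧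
      s ≤ 60 * (m + 1) * 2 ^ l ∧ 2 ^ ((l - 1) * t) ≤ Nat.card {a : ℕ // a ∈ A ∧ a < 2 ^ m}

/-- SHK: sharpness for complete bipartite graphs -/
def S_SHK : Prop :=
  ∀ s t l m : ℕ, 2 ≤ s → (s - 1).factorial < t → 2 ≤ l → s * l ≤ m →
    ∃ (z : ℕ) (G : SimpleGraph (Str m)), PairDnnf m z 1 G.Adj ∧
      (completeBipartiteGraph (Fin s) (Fin t)).Free G ∧
      z ≤ 1000 * (m + 1) * 2 ^ ((s - 1) * l) ∧
      2 ^ ((s - 1) * l) * 2 ^ m ≤ 8 * Nat.card G.edgeSet

/-- SHG: sharpness for girth larger than four -/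
def S_SHG : Prop :=
  ∀ t m : ℕ, 3 ≤ t → 2 * t + 3 ≤ m → ∃ (z : ℕ) (G : SimpleGraph (Str m)),
    PairDnnf m z 1 G.Adj ∧ 4 < G.egirth ∧ z ≤ 1000 * (m + 1) * 2 ^ t ∧
    2 ^ t * 2 ^ m ≤ 8 * Nat.card G.edgeSet

/-- DES: symmetric designs -/
def S_DES : Prop :=
  ∀ (lam m s w v k : ℕ) (B : Fin v → Finset (Fin v)) (p b : Fin v → Str m), 1 ≤ lam →
    (∀ i, (B i).card = k) →
    (∀ x y : Fin v, x ≠ y → (univ.filter (fun i => x ∈ B i ∧ y ∈ B i)).card = lam) →
    Function.Injective p → Function.Injective b → 2 ^ m ≤ 2 * v →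
    PairDnnf m s w (fun x y => ∃ i j, i ∈ B j ∧ x = p i ∧ y = b j) →
    k ≤ 4 * lam ^ 3 * 2 ^ w * s ∧ v ≤ 1 + 16 * lam ^ 5 * 4 ^ w * s ^ 2

end Pool.Agent.Y382.DN
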