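import Pool.Agent.Y382.DN.Count
import Pool.Agent.TH454.BW.Bes

/-!
Relations between `r` strings decided by decomposable circuits: statements.
-/

set_option autoImplicit false

namespace Pool.Agent.Y382.DN

open Finset Pool.Agent.Y622.NG Pool.Agent.H607R2.BW Pool.Agent.TH454.BW

/-- `N` points of `P` which agree in the coordinates of type `j` in `T` and are different on `T` -/
def StarG {n r : ℕ} (τ : Fin n → Fin r) (j : Fin r) (N : ℕ) (T : Finset (Fin n))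
    (P : (Fin n → Bool) → Prop) : Prop :=
  ∃ f : Fin N → (Fin n → Bool), (∀ i, P (f i)) ∧
    (∀ i i', ∀ k ∈ T, τ k = j → f i k = f i' k) ∧
    (∀ i i', i ≠ i' → ∃ k ∈ T, f i k ≠ f i' k)

/-- a product of stars of the types `e ∈ J` on disjoint sets `T e` of coordinates in `U` -/
def Tri {n r : ℕ} (τ : Fin n → Fin r) (J : Finset (Fin r)) (N : ℕ) (U : Finset (Fin n))
    (P : (Fin n → Bool) → Prop) : Prop :=
  ∃ (T : Fin r → Finset (Fin n)) (f : Fin r → Fin N → Fin n → Bool) (z : Fin n → Bool),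
    (∀ e ∈ J, T e ⊆ U) ∧ (∀ e ∈ J, ∀ e' ∈ J, e ≠ e' → Disjoint (T e) (T e')) ∧
    (∀ e ∈ J, ∀ i i', ∀ k ∈ T e, τ k = e → f e i k = f e i' k) ∧
    (∀ e ∈ J, ∀ i i', i ≠ i' → ∃ k ∈ T e, f e i k ≠ f e i' k) ∧
    ∀ y : Fin n → Bool, (∀ k, (∀ e ∈ J, k ∉ T e) → y k = z k) →
      (∀ e ∈ J, ∃ i, ∀ k ∈ T e, y k = f e i k) → P y

/-- with the coordinates of type `j` in `U` fixed, there are at most `c` possibilities on `T` -/
def BdU {n r : ℕ} (τ : Fin n → Fin r) (j : Fin r) (U T : Finset (Fin n))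
    (P : Finset (Fin n → Bool)) (c : ℕ) : Prop :=
  ∀ z : Fin n → Bool,
    ((P.filter fun x => ∀ k ∈ U, τ k = j → x k = z k).image (res T)).card ≤ c

/-- the number of coordinates of type `i` in `F` -/
def nty {n r : ℕ} (τ : Fin n → Fin r) (i : Fin r) (F : Finset (Fin n)) : ℕ :=
  (F.filter fun k => τ k = i).card

/-- GCNT: counting -/
def S_GCNT : Prop :=
  (∀ (n r : ℕ) (τ : Fin n → Fin r) (j : Fin r) (U T1 T2 T3 : Finset (Fin n))
    (P : Finset (Fin n → Bool)) (c1 c2 c3 : ℕ), (∀ k ∈ U, k ∈ T1 ∨ k ∈ T2 ∨ k ∈ T3) →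
    BdU τ j U T1 P c1 → BdU τ j U T2 P c2 → BdU τ j U T3 P c3 →
    (P.image (res U)).card ≤ c1 * c2 * c3 * 2 ^ nty τ j U) ∧
  (∀ (n r : ℕ) (τ : Fin n → Fin r) (j : Fin r) (U T : Finset (Fin n)) (N : ℕ)
    (Q : (Fin n → Bool) → Prop) (P : Finset (Fin n → Bool)), T ⊆ U → ¬ StarG τ j N T Q →
    (∀ x ∈ P, Q x) → BdU τ j U T P N) ∧
  (∀ (n r : ℕ) (τ : Fin n → Fin r) (j : Fin r) (U T : Finset (Fin n))
    (P : Finset (Fin n → Bool)) (c : ℕ), T ⊆ U → 2 ^ (T.card - nty τ j T) ≤ c → BdU τ j U T P c) ∧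
  (∀ (n r : ℕ) (τ : Fin n → Fin r) (j : Fin r) (U T T1 T2 : Finset (Fin n))
    (P : Finset (Fin n → Bool)) (c1 c2 : ℕ), (∀ k ∈ T, k ∈ T1 ∨ k ∈ T2) →
    BdU τ j U T1 P c1 → BdU τ j U T2 P c2 → BdU τ j U T P (c1 * c2))

/-- GPRD: products of images -/
def S_GPRD : Prop :=
  ∀ (n : ℕ) (U T1 T2 : Finset (Fin n)) (P : Finset (Fin n → Bool)),
    (∀ k ∈ U, k ∈ T1 ∨ k ∈ T2) →
    (P.image (res U)).card ≤ (P.image (res T1)).card * (P.image (res T2)).card

/-- GFREE: many free coordinates give a product of stars, unless almost all of them have the same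
type -/
def S_GFREE : Prop :=
  ∀ (n r N : ℕ) (τ : Fin n → Fin r) (J : Finset (Fin r)) (U F : Finset (Fin n))
    (P : (Fin n → Bool) → Prop) (x0 : Fin n → Bool), F ⊆ U → J.Nonempty →
    (∀ y, (∀ k ∉ F, y k = x0 k) → P y) → ¬ Tri τ J N U P →
    F.card ≤ r * (J.card * N) ∨
      ∃ i ∈ J, J.card * N ≤ nty τ i F ∧ F.card - nty τ i F ≤ r * (J.card * N)

/-- GFREE2: free coordinates of type `i` and a star of type `i` -/
def S_GFREE2 : Prop :=
  ∀ (n r N : ℕ) (τ : Fin n → Fin r) (J : Finset (Fin r)) (i : Fin r) (U F W : Finset (Fin n))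
    (P Q : (Fin n → Bool) → Prop) (x0 : Fin n → Bool), F ⊆ U → W ⊆ U → Disjoint F W → i ∈ J →
    J.card * N ≤ nty τ i F → StarG τ i N W Q →
    (∀ x, Q x → ∀ y, (∀ k ∈ W, y k = x k) → (∀ k, k ∉ F → k ∉ W → y k = x0 k) → P y) →
    Tri τ J N U P

/-- GJOIN: a star at a gate and a product of stars of the other types in its context -/
def S_GJOIN : Prop :=
  ∀ (n s w r N : ℕ) (τ : Fin n → Fin r) (J : Finset (Fin r)) (j : Fin r) (U : Finset (Fin n))
    (C : Dnnf n s w) (out v : Fin s), j ∈ J → C.scope v ⊆ U →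
    StarG τ j N (C.scope v) (fun x => C.val v x = true) →
    Tri τ (J.erase j) N (U \ C.scope v) (fun x => Reach C out x v) →
    Tri τ J N U (fun x => C.val out x = true)

/-- GRD: accepted sets without a product of stars are small -/
def S_GRD : Prop :=
  ∀ r N w d : ℕ, 1 ≤ N → ∃ K : ℕ, ∀ (n s M : ℕ) (τ : Fin n → Fin r) (C : Dnnf n s w)
    (out : Fin s) (U : Finset (Fin n)) (J : Finset (Fin r)), J.card = d + 1 →
    C.scope out ⊆ U → (∀ j ∈ J, nty τ j U ≤ M) →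
    ¬ Tri τ J N U (fun x => C.val out x = true) →
    ((acc C out).image (res U)).card ≤ K * s ^ d * 2 ^ M

/-- The circuit decides which tuples of `r` different strings of `m` bits are the vertices of an
edge of the hypergraph `E`. -/
def HyperDnnf (m r s w : ℕ) (E : Finset (Finset (Str m))) : Prop :=
  open Classical in
  ∃ (C : Dnnf (r * m) s w) (out : Fin s), ∀ x : Fin r → Str m,
    C.val out (fun k => x (finProdFinEquiv.symm k).1 (finProdFinEquiv.symm k).2) = true ↔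
      Function.Injective x ∧ univ.image x ∈ E

/-- BESD: sparse configurations -/
def S_BESD : Prop :=
  open Classical in
  ∀ r k w : ℕ, 3 ≤ r → 1728 * r.factorial ^ 2 ≤ k → ∃ K : ℕ,
    ∀ (m s : ℕ) (E : Finset (Finset (Str m))), (∀ e ∈ E, e.card = r) → HyperDnnf m r s w E →
      (∀ T ⊆ E, T.card = k → (r - 2) * k + 3 < (T.biUnion id).card) →
      E.card ≤ K * s ^ 2 * 2 ^ m

/-- BESA: asymptotic form -/
def S_BESA : Prop :=
  open Classical in
  ∀ (r k w : ℕ) (ε : ℝ), 3 ≤ r → 1728 * r.factorial ^ 2 ≤ k → 0 < ε → ∃ c : ℝ, 0 < c ∧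
    ∀ (m s : ℕ) (E : Finset (Finset (Str m))), (∀ e ∈ E, e.card = r) → HyperDnnf m r s w E →
      (∀ T ⊆ E, T.card = k → (r - 2) * k + 3 < (T.biUnion id).card) →
      ε * ((2 : ℝ) ^ m) ^ 2 ≤ E.card → c * ((2 : ℝ) ^ m) ^ (1 / 2 : ℝ) ≤ s

end Pool.Agent.Y382.DN
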