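import Pool.Agent.H554R2.RK.Defs
import Pool.Agent.H607R2.BW.Defs

/-!
Graphs without `K_{r,r}` decided by nondeterministic programs which read every bit at most `k`
times: statements.
-/

set_option autoImplicit false

namespace Pool.Agent.Y382.RK

open Finset Pool.Agent.H554R2.Sem Pool.Agent.H554R2.RK Pool.Agent.H607R2.BW

/-- SKST: bipartite graphs in which the neighbourhoods are products -/
def S_SKST : Prop :=
  ∀ (X Y1 Y2 : Type) [Fintype X] [Fintype Y1] [Fintype Y2] (Φ : X → Finset Y1)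
    (Ψ : X → Finset Y2) (r ρ : ℕ), 1 ≤ ρ → 1 ≤ r → r ≤ ρ ^ 2 →
    (∀ (x : Fin r → X) (y : Fin r → Y1 × Y2), Function.Injective x → Function.Injective y →
      ∃ i j, ¬ ((y j).1 ∈ Φ (x i) ∧ (y j).2 ∈ Ψ (x i))) →
    ((∑ x, (Φ x).card * (Ψ x).card : ℕ) : ℝ) ≤
      r * (Fintype.card X : ℝ) ^ (1 - 1 / (ρ : ℝ)) * (Fintype.card Y1 * Fintype.card Y2) +
        ρ * Fintype.card X * (Fintype.card Y1 + Fintype.card Y2)

/-- RECT: a rectangle without a grid -/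
def S_RECT : Prop :=
  ∀ Q r ρ : ℕ, 1 ≤ Q → 2 ≤ r → r ≤ ρ ^ 2 → ∃ C : ℝ, 0 < C ∧
    ∀ (m : ℕ) (W : Finset (Pt (m + m))), IsRect Q W →
      (∀ x y : Fin r → Str m, Function.Injective x → Function.Injective y →
        ∃ i j, Fin.append (x i) (y j) ∉ W) →
      (W.card : ℝ) ≤
        C * (((2 : ℝ) ^ m) ^ (2 - 1 / (4 * Q : ℝ)) + ((2 : ℝ) ^ m) ^ (2 - 1 / (ρ : ℝ)))

/-- The programs `P i` have at most `S` nodes, read every bit at most `k` times on every path, and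
the strings `x` and `y` are adjacent if and only if all of them accept `x` followed by `y`. -/
def Decides {m s : ℕ} (k S : ℕ) (P : Fin s → NBP (Fin (m + m))) (G : SimpleGraph (Str m)) : Prop :=
  (∀ i, ReadK (P i) k) ∧ (∀ i, Fintype.card (P i).State ≤ S) ∧
    ∀ x y : Str m, G.Adj x y ↔ ∀ i, Acc (P i) (Fin.append x y)

/-- BND: the bound -/
def S_BND : Prop :=
  ∀ k s : ℕ, ∃ Q c : ℕ, 1 ≤ Q ∧ ∀ r ρ : ℕ, 2 ≤ r → r ≤ ρ ^ 2 → ∃ C : ℝ, 0 < C ∧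
    ∀ (m S : ℕ) (P : Fin s → NBP (Fin (m + m))) (G : SimpleGraph (Str m)), Q ≤ m →
      Decides k S P G → (completeBipartiteGraph (Fin r) (Fin r)).Free G →
      (Nat.card G.edgeSet : ℝ) ≤ C * ((S : ℝ) + 1) ^ c *
        (((2 : ℝ) ^ m) ^ (2 - 1 / (4 * Q : ℝ)) + ((2 : ℝ) ^ m) ^ (2 - 1 / (ρ : ℝ)))

/-- LARGE: graphs of the order in the question need many nodes -/
def S_LARGE : Prop :=
  ∀ k s : ℕ, ∃ R : ℕ, ∀ r : ℕ, R ≤ r → ∃ δ : ℝ, 0 < δ ∧ ∀ c' : ℝ, 0 < c' →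
    ∃ m₀ : ℕ, ∀ (m S : ℕ) (P : Fin s → NBP (Fin (m + m))) (G : SimpleGraph (Str m)), m₀ ≤ m →
      Decides k S P G → (completeBipartiteGraph (Fin r) (Fin r)).Free G →
      c' * ((2 : ℝ) ^ m) ^ (2 - 1 / (r : ℝ)) ≤ Nat.card G.edgeSet →
      ((2 : ℝ) ^ m) ^ δ ≤ S

end Pool.Agent.Y382.RK
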