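import Pool.Agent.Y382.DN.Stm

/-!
Reached gates and the cover of the accepted inputs by pieces.
-/

set_option autoImplicit false

namespace Pool.Agent.Y382.DN

open Finset Pool.Agent.Y622.NG

theorem t_REACH : S_REACH := by
  intro n s w C out v x h
  induction h with
  | root => exact ⟨subset_rfl, fun y _ => Reach.root, id⟩
  | or v β hv _ ih =>
    obtain ⟨h1, h2, h3⟩ := ih
    obtain ⟨-, hsub, himp⟩ := ch_prop C hv β
    exact ⟨hsub.trans h1,
      fun y hy => Reach.or v β hv (h2 y fun k hk => hy k fun hk' => hk (hsub hk')),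
      fun hx => h3 (himp x hx)⟩
  | left v a b hk _ hb ih =>
    obtain ⟨h1, h2, h3⟩ := ih
    obtain ⟨ha', hb', hs, hd, hval⟩ := C.and_ok v a b hk
    refine ⟨?_, ?_, ?_⟩
    · have : C.scope a ⊆ C.scope v := by rw [hs]; exact subset_union_left
      exact this.trans h1
    · intro y hy
      refine Reach.left v a b hk
        (h2 y fun k hk' => hy k fun h => hk' (by rw [hs]; exact mem_union_left _ h)) ?_
      rw [← hb]
      exact C.dep b _ _ fun k hk' => (hy k fun h => (disjoint_left.1 hd) h hk').symm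
    · intro hx
      exact h3 (by rw [hval, hx, hb]; rfl)
  | right v a b hk _ hb ih =>
    obtain ⟨h1, h2, h3⟩ := ih
    obtain ⟨ha', hb', hs, hd, hval⟩ := C.and_ok v a b hk
    refine ⟨?_, ?_, ?_⟩
    · have : C.scope b ⊆ C.scope v := by rw [hs]; exact subset_union_right
      exact this.trans h1
    · intro y hy
      refine Reach.right v a b hk
        (h2 y fun k hk' => hy k fun h => hk' (by rw [hs]; exact mem_union_right _ h)) ?_
      rw [← hb]
      exact C.dep a _ _ fun k hk' => (hy k fun h => (disjoint_left.1 hd) hk' h).symm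
    · intro hx
      exact h3 (by rw [hval, hx, hb]; rfl)

theorem mem_piece {n s w : ℕ} {C : Dnnf n s w} {out v c : Fin s} {x : Fin n → Bool} :
    x ∈ piece C out v c ↔ Reach C out x v ∧ C.val c x = true := by
  classical
  unfold piece
  rw [mem_filter]
  exact ⟨fun h => h.2, fun h => ⟨mem_univ _, h⟩⟩

theorem mem_acc {n s w : ℕ} {C : Dnnf n s w} {out : Fin s} {x : Fin n → Bool} :
    x ∈ acc C out ↔ C.val out x = true := by
  unfold acc
  rw [mem_filter]
  exact ⟨fun h => h.2, fun h => ⟨mem_univ _, h⟩⟩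

theorem t_COVER : S_COVER := by
  intro n s w C out Φ hout x hx
  have key : ∀ N : ℕ, ∀ v : Fin s, v.val = N → Φ v → Reach C out x v → C.val v x = true →
      (∃ (v : Fin s) (β : Bool), IsOr C v ∧ Φ v ∧ ¬ Φ (ch C v β) ∧
        x ∈ piece C out v (ch C v β)) ∨
      (∃ v a b : Fin s, C.kind v = .and a b ∧ Φ v ∧ ¬ Φ a ∧ ¬ Φ b ∧ x ∈ piece C out v v) ∨
      (∃ v : Fin s, C.kind v = .leaf ∧ Φ v ∧ x ∈ piece C out v v) := by
    intro N
    induction N using Nat.strong_induction_on with
    | _ N ih =>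
      intro v hv hΦ hR hval
      cases hk : C.kind v with
      | leaf => exact Or.inr (Or.inr ⟨v, hk, hΦ, mem_piece.2 ⟨hR, hval⟩⟩)
      | and a b =>
        obtain ⟨ha, hb, hs, hd, hvv⟩ := C.and_ok v a b hk
        have hab : C.val a x = true ∧ C.val b x = true := by
          rw [hvv, Bool.and_eq_true] at hval
          exact hval
        by_cases h1 : Φ a
        · exact ih a.val (by rw [← hv]; exact ha) a rfl h1 (Reach.left v a b hk hR hab.2) hab.1
        · by_cases h2 : Φ b
          · exact ih b.val (by rw [← hv]; exact hb) b rfl h2 (Reach.right v a b hk hR hab.1) hab.2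
          · exact Or.inr (Or.inl ⟨v, a, b, hk, hΦ, h1, h2, mem_piece.2 ⟨hR, hval⟩⟩)
      | or a b =>
        have hor : IsOr C v := ⟨a, b, hk⟩
        obtain ⟨β, hβ⟩ := ch_ex C hor hval
        obtain ⟨hlt, hsub, himp⟩ := ch_prop C hor β
        by_cases h1 : Φ (ch C v β)
        · exact ih (ch C v β).val (by rw [← hv]; exact hlt) _ rfl h1 (Reach.or v β hor hR) hβ
        · exact Or.inl ⟨v, β, hor, hΦ, h1, mem_piece.2 ⟨hR, hβ⟩⟩
  exact key _ out rfl hout Reach.root hx

theorem t_WALK : S_WALK := by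
  classical
  intro n s w C out Φ K g hout h1 h2 h3
  let Z : Fin s × Bool → Finset (Fin n → Bool) := fun p =>
    if IsOr C p.1 then
      (if Φ p.1 ∧ ¬ Φ (ch C p.1 p.2) then (piece C out p.1 (ch C p.1 p.2)).image g else ∅)
    else
      (if (∃ a b, C.kind p.1 = .and a b ∧ Φ p.1 ∧ ¬ Φ a ∧ ¬ Φ b) ∨ (C.kind p.1 = .leaf ∧ Φ p.1)
        then (piece C out p.1 p.1).image g else ∅)
  have hZ : ∀ p, (Z p).card ≤ K := by
    intro p
    simp only [Z]
    split_ifs with ha hb hc
    · exact h1 _ _ ha hb.1 hb.2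
    · simp
    · rcases hc with ⟨a, b, hc1, hc2, hc3, hc4⟩ | ⟨hc1, hc2⟩
      · exact h2 _ a b hc1 hc2 hc3 hc4
      · exact h3 _ hc1 hc2
    · simp
  have hcov : (acc C out).image g ⊆ univ.biUnion Z := by
    intro y hy
    rw [mem_image] at hy
    obtain ⟨x, hx, rfl⟩ := hy
    rw [mem_acc] at hx
    rw [mem_biUnion]
    rcases t_COVER n s w C out Φ hout x hx with ⟨v, β, hor, hΦ, hch, hp⟩ |
        ⟨v, a, b, hk, hΦ, ha, hb, hp⟩ | ⟨v, hk, hΦ, hp⟩
    · refine ⟨(v, β), mem_univ _, ?_⟩
      simp only [Z]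
      rw [if_pos hor, if_pos ⟨hΦ, hch⟩]
      exact mem_image_of_mem _ hp
    · refine ⟨(v, true), mem_univ _, ?_⟩
      have hno : ¬ IsOr C v := by
        rintro ⟨a', b', hk'⟩
        rw [hk] at hk'
        exact absurd hk' (by simp)
      simp only [Z]
      rw [if_neg hno, if_pos (Or.inl ⟨a, b, hk, hΦ, ha, hb⟩)]
      exact mem_image_of_mem _ hp
    · refine ⟨(v, true), mem_univ _, ?_⟩
      have hno : ¬ IsOr C v := by
        rintro ⟨a', b', hk'⟩
        rw [hk] at hk'
        exact absurd hk' (by simp)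
      simp only [Z]
      rw [if_neg hno, if_pos (Or.inr ⟨hk, hΦ⟩)]
      exact mem_image_of_mem _ hp
  calc ((acc C out).image g).card ≤ (univ.biUnion Z).card := card_le_card hcov
    _ ≤ ∑ p : Fin s × Bool, (Z p).card := card_biUnion_le
    _ ≤ ∑ _p : Fin s × Bool, K := sum_le_sum fun p _ => hZ p
    _ = 2 * s * K := by
      rw [sum_const, card_univ, Fintype.card_prod, Fintype.card_fin, Fintype.card_bool,
        smul_eq_mul]
      ring

end Pool.Agent.Y382.DN
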